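import Pool.Agent.Helper93.TCU.Stmts
import Pool.Agent.Helper93.TCU.Bas
import Pool.Agent.Helper3.TCS.Stmts

/-!
# E3 (helper82)
-/

set_option autoImplicit false

namespace Pool.TCU

open Pool.TC Pool.TCM Pool.TCS Finset
open scoped Classical

private theorem E3_mean {Ω : Type} [Fintype Ω] (h : 0 < (Fintype.card Ω : ℝ)) (A B : ℝ)
    (f : Ω → ℝ) : mean (fun ω => A + B * f ω) = A + B * mean f := by
  unfold mean
  rw [Finset.sum_add_distrib, ← Finset.mul_sum, Finset.sum_const, Finset.card_univ, nsmul_eq_mul]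
  generalize (∑ ω, f ω) = s
  field_simp

private theorem E3_alg (be C l e1 f1 X : ℝ) (hbe : 0 < be) (hbe1 : be ≤ 1) (hl : 0 < l)
    (he0 : 0 ≤ e1) (he1 : e1 ≤ 1) (hf0 : 0 ≤ f1) (hf1 : f1 ≤ 1)
    (hX : e1 * (1 - be * C / l) = 1 - X) :
    (1 - be) * (1 - be * ((C - 1) / l)) * e1 * f1 ≤ (1 - be) * f1 * (1 - X) + 2 / l := by
  rw [← hX]
  have h1 : (1 - be) * (1 - be * ((C - 1) / l)) * e1 * f1 =
      (1 - be) * f1 * (e1 * (1 - be * C / l)) + ((1 - be) * e1 * f1 * be) / l := by
    field_simp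
    ring
  rw [h1]
  have h2 : (1 - be) * e1 * f1 * be ≤ 2 := by
    have a1 : 0 ≤ 1 - be := by linarith
    have a2 : (1 - be) * e1 ≤ 1 := by nlinarith
    have a3 : 0 ≤ (1 - be) * e1 := mul_nonneg a1 he0
    have a4 : (1 - be) * e1 * f1 ≤ 1 := by nlinarith
    have a5 : 0 ≤ (1 - be) * e1 * f1 := mul_nonneg a3 hf0
    nlinarith
  have h3 : (1 - be) * e1 * f1 * be / l ≤ 2 / l := by gcongr
  linarith

private theorem E3_count {V κ : Type} [Fintype V] [Fintype κ] {S : CS V κ} {U : Finset V}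
    {L : V → Finset κ} {D l m K : ℕ} {x : ℝ} {q : V → κ → ℝ} {Lam : ℝ} {e : V → Fin l → κ}
    (h : Hyp S U L D l m K x q Lam) (he : Enu U L l e) {w : V} (hw : w ∈ U) {a : κ}
    (ha : a ∈ L w) :
    (∑ t : V, (((univ : Finset (Fin l)).filter
      (fun i => t ∈ U ∧ t ≠ w ∧ S.r t (e t i) = S.r w a)).card : ℝ)) =
      (Cv S U L (S.r w a)).card - 1 := by
  have hmem : (w, a) ∈ Cv S U L (S.r w a) := by
    simp only [Cv, mem_filter, mem_univ, true_and]
    exact ⟨hw, ha, trivial⟩
  have hcard : ∑ t : V, ((univ : Finset (Fin l)).filter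
      (fun i => t ∈ U ∧ t ≠ w ∧ S.r t (e t i) = S.r w a)).card =
      ((Cv S U L (S.r w a)).erase (w, a)).card := by
    rw [← Finset.card_sigma]
    refine Finset.card_bij (fun p _ => (p.1, e p.1 p.2)) ?_ ?_ ?_
    · rintro ⟨t, i⟩ hp
      simp only [Finset.mem_sigma, mem_filter, mem_univ, true_and] at hp
      simp only [mem_erase, Cv, mem_filter, mem_univ, true_and]
      refine ⟨?_, hp.1, (he.mem t hp.1 _).2 ⟨i, rfl⟩, hp.2.2⟩
      intro hcon
      exact hp.2.1 (Prod.mk.inj hcon).1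
    · rintro ⟨t, i⟩ hp ⟨t', i'⟩ hp' heq
      simp only [Finset.mem_sigma, mem_filter, mem_univ, true_and] at hp hp'
      obtain ⟨h1, h2⟩ := Prod.mk.inj heq
      simp only at h1 h2
      subst h1
      have := he.inj t hp.1 h2
      rw [this]
    · rintro ⟨t, b⟩ hp
      simp only [mem_erase, Cv, mem_filter, mem_univ, true_and] at hp
      obtain ⟨hne, htU, hb, hr⟩ := hp
      obtain ⟨i, hi⟩ := (he.mem t htU b).1 hb
      refine ⟨⟨t, i⟩, ?_, ?_⟩
      · simp only [Finset.mem_sigma, mem_filter, mem_univ, true_and]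
        refine ⟨htU, ?_, ?_⟩
        · rintro rfl
          apply hne
          rw [h.inj2 t htU b hb a ha hr]
        · rw [hi]
          exact hr
      · simp only
        rw [hi]
  have h2 : (∑ t : V, (((univ : Finset (Fin l)).filter
      (fun i => t ∈ U ∧ t ≠ w ∧ S.r t (e t i) = S.r w a)).card : ℝ)) =
      (((Cv S U L (S.r w a)).erase (w, a)).card : ℝ) := by
    rw [← hcard]
    push_cast
    rfl
  rw [h2, card_erase_of_mem hmem, Nat.cast_sub (card_pos.2 ⟨_, hmem⟩)]
  simp

theorem thm_E3 (hMean : St_Mean) : St_E3 := by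
  intro V κ _ _ S U L D l m K x q Lam e h he w hw a ha
  have : Nonempty (Fin l) := ⟨⟨0, h.l0⟩⟩
  have hm := (hMean V (Fin l) (fun t => (univ : Finset (Fin l)).filter
      (fun i => t ∈ U ∧ t ≠ w ∧ S.r t (e t i) = S.r w a))).1
  rw [E3_count h he hw ha, Fintype.card_fin] at hm
  have hm2 : mean (fun ω : V → Fin l => ((KR S U (oc e ω) w (S.r w a)).card : ℝ)) =
      ((Cv S U L (S.r w a)).card - 1) / l := by
    refine Eq.trans (congrArg mean (funext fun ω => ?_)) hm
    refine congrArg Nat.cast (congrArg Finset.card ?_)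
    ext t
    unfold KR
    simp only [mem_filter, mem_univ, true_and]
    exact Iff.rfl
  have hN : (0 : ℝ) < Fintype.card (V → Fin l) := by exact_mod_cast Fintype.card_pos
  have hlin : mean (fun ω : V → Fin l => Psi3 S U L l m K x q (oc e ω) w a) =
      (1 - bet m K) * (1 - bet m K * (((Cv S U L (S.r w a)).card - 1) / l)) *
        (1 - eR S U L l m K x (S.r w a)) * (1 - fK S U L l m K q w a) := by
    rw [← hm2]
    have hk : ∀ ω : V → Fin l, Psi3 S U L l m K x q (oc e ω) w a =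
        (1 - bet m K) * (1 - eR S U L l m K x (S.r w a)) * (1 - fK S U L l m K q w a) +
        (-(bet m K) * (1 - bet m K) * (1 - eR S U L l m K x (S.r w a)) *
          (1 - fK S U L l m K q w a)) * ((KR S U (oc e ω) w (S.r w a)).card : ℝ) := by
      intro ω
      unfold Psi3
      ring
    rw [funext hk, E3_mean hN]
    ring
  rw [hlin]
  unfold Mt
  have e1 := h.eR_nonneg (S.r w a)
  have e2 := h.eR_le (S.r w a)
  have f1 := h.fK_nonneg hw ha
  have f2 := h.fK_le hw ha
  have b1 := h.bet_le'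
  exact E3_alg (bet m K) (Cv S U L (S.r w a)).card l _ _ (bet m K * x / l) h.bet_pos
    (by linarith) h.lpos (by linarith) (by linarith) (by linarith) (by linarith)
    (h.eR_mul _)

end Pool.TCU
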